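import Pool.Agent.W941.MG.Stm

/-!
Project MG, part SEL: the selection.
-/

namespace Pool.Agent.W212.MG

open Pool.Agent.W941.MG

set_option autoImplicit false

section aux

set_option linter.unusedSectionVars false

variable {V : Type} [AddCommGroup V] [Fintype V] {n b : ℕ}

/-- the sum of the weights of a class -/
def SS (w : Fin n → V) (f : Fin n → Fin b) (j : Fin b) : V :=
  ∑ c ∈ Finset.univ.filter (fun c => f c = j), w c

lemma SS_total (w : Fin n → V) (f : Fin n → Fin b) : ∑ j, SS w f j = ∑ c, w c := by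
  unfold SS
  exact Finset.sum_fiberwise Finset.univ f w

lemma SS_congr (w : Fin n → V) (f g : Fin n → Fin b) (j : Fin b)
    (h : ∀ c, g c = j ↔ f c = j) : SS w g j = SS w f j := by
  unfold SS
  refine Finset.sum_congr ?_ fun _ _ => rfl
  ext c
  simp [h c]

open Classical in
/-- the surviving condition -/
def Sv {K : ℕ} (f : Fin n → Fin (K + 1)) (γ : V) (x : (Fin n → V) × (Fin K → V)) : Prop :=
  ∀ j : Fin K, x.2 j + SS x.1 f j.castSucc = γ

open Classical in
lemma cnt1 {K : ℕ} (f : Fin n → Fin (K + 1)) (γ : V) :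
    Fintype.card V ^ n ≤
      (Finset.univ.filter fun x : (Fin n → V) × (Fin K → V) => Sv f γ x).card := by
  have h : (Finset.univ : Finset (Fin n → V)).card = Fintype.card V ^ n := by
    rw [Finset.card_univ, Fintype.card_fun, Fintype.card_fin]
  rw [← h]
  refine Finset.card_le_card_of_injOn (fun w => (w, fun j => γ - SS w f j.castSucc)) ?_ ?_
  · intro w _
    simp only [Finset.coe_filter, Finset.mem_univ, true_and, Set.mem_ofPred_eq]
    intro j
    exact sub_add_cancel _ _
  · intro w _ w' _ h
    exact (Prod.ext_iff.1 h).1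

open Classical in
lemma cnt2 {K : ℕ} (f g : Fin n → Fin (K + 1)) (γ : V) :
    (Finset.univ.filter fun x : (Fin n → V) × (Fin K → V) => Sv f γ x ∧ Sv g γ x).card ≤
      (Finset.univ.filter fun w : Fin n → V => ∀ j,
          ∑ c ∈ Finset.univ.filter (fun c => f c = j), w c =
          ∑ c ∈ Finset.univ.filter (fun c => g c = j), w c).card := by
  refine Finset.card_le_card_of_injOn Prod.fst ?_ ?_
  · intro x hx
    simp only [Finset.coe_filter, Finset.mem_univ, true_and, Set.mem_ofPred_eq] at hx ⊢
    obtain ⟨h1, h2⟩ := hx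
    have h3 : ∀ j : Fin K, SS x.1 f j.castSucc = SS x.1 g j.castSucc := by
      intro j
      have := (h1 j).trans (h2 j).symm
      exact add_left_cancel this
    have h4 : ∀ j : Fin (K + 1), SS x.1 f j = SS x.1 g j := by
      intro j
      refine Fin.lastCases ?_ (fun i => h3 i) j
      have t1 := SS_total x.1 f
      have t2 := SS_total x.1 g
      rw [Fin.sum_univ_castSucc] at t1 t2
      have t3 := t1.trans t2.symm
      rw [Finset.sum_congr rfl (fun i _ => h3 i)] at t3
      exact add_left_cancel t3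
    exact h4
  · intro x hx y hy hxy
    simp only [Finset.coe_filter, Finset.mem_univ, true_and, Set.mem_ofPred_eq] at hx hy
    refine Prod.ext hxy ?_
    funext j
    have h1 := hx.1 j
    have h2 := hy.1 j
    change x.1 = y.1 at hxy
    rw [hxy, ← h2] at h1
    exact add_right_cancel h1

end aux

open Classical in
/-- SEL for `K ≥ 1` -/
theorem sel1 : ∀ (K m : ℕ), 1 ≤ K → ∀ (V : Type) [AddCommGroup V] [Fintype V] (B : Finset V),
    AvgFree K B →
    (∀ f : Fin ((K + 1) * m) → Fin (K + 1), Bal (K + 1) m f →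
      4 * ∑ g ∈ Finset.univ.filter (fun g : Fin ((K + 1) * m) → Fin (K + 1) => Bal (K + 1) m g ∧
          g ≠ f ∧ ∃ j, ∀ c, g c = j ↔ f c = j),
        (Finset.univ.filter fun w : Fin ((K + 1) * m) → V => ∀ j,
          ∑ c ∈ Finset.univ.filter (fun c => f c = j), w c =
          ∑ c ∈ Finset.univ.filter (fun c => g c = j), w c).card ≤
      Fintype.card V ^ ((K + 1) * m)) →
    ∃ I : Finset (Fin ((K + 1) * m) → Fin (K + 1)), Diag (K + 1) m I ∧
      B.card * (Finset.univ.filter fun f : Fin ((K + 1) * m) → Fin (K + 1) => Bal (K + 1) m f).card ≤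
        2 * Fintype.card V ^ K * I.card := by
  intro K m hK1 V _ _ B hB hf
  set n := (K + 1) * m with hn
  set X := (Fin n → V) × (Fin K → V) with hX
  set BS : (Fin n → Fin (K + 1)) → Finset (Fin n → Fin (K + 1)) := fun f =>
    Finset.univ.filter (fun g : Fin n → Fin (K + 1) => Bal (K + 1) m g ∧
          g ≠ f ∧ ∃ j, ∀ c, g c = j ↔ f c = j) with hBS
  set P : (Fin n → Fin (K + 1)) → V → X → Prop := fun f γ x =>
    Sv f γ x ∧ ∀ g ∈ BS f, ¬ Sv g γ x with hP
  set Good : X → Finset (Fin n → Fin (K + 1)) := fun x =>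
    Finset.univ.filter (fun f => Bal (K + 1) m f ∧ ∃ γ ∈ B, P f γ x) with hGood
  set BalS : Finset (Fin n → Fin (K + 1)) :=
    Finset.univ.filter (fun f : Fin n → Fin (K + 1) => Bal (K + 1) m f) with hBalS
  -- the count for one `f` and one `γ`
  have c1 : ∀ f ∈ BalS, ∀ γ : V,
      3 * Fintype.card V ^ n ≤ 4 * (Finset.univ.filter fun x : X => P f γ x).card := by
    intro f hfB γ
    have hfb : Bal (K + 1) m f := (Finset.mem_filter.1 hfB).2
    have h1 : Fintype.card V ^ n ≤ (Finset.univ.filter fun x : X => Sv f γ x).card :=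
      cnt1 (n := n) (K := K) f γ
    have h2 : (Finset.univ.filter fun x : X => Sv f γ x) ⊆
        (Finset.univ.filter fun x : X => P f γ x) ∪
        (BS f).biUnion (fun g => Finset.univ.filter fun x : X => Sv f γ x ∧ Sv g γ x) := by
      intro x hx
      have hx' : Sv f γ x := (Finset.mem_filter.1 hx).2
      by_cases hp : P f γ x
      · exact Finset.mem_union_left _ (Finset.mem_filter.2 ⟨Finset.mem_univ _, hp⟩)
      · refine Finset.mem_union_right _ ?_
        rw [Finset.mem_biUnion]
        simp only [hP, hx', true_and, not_forall, not_not] at hp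
        obtain ⟨g, hg, hg'⟩ := hp
        exact ⟨g, hg, Finset.mem_filter.2 ⟨Finset.mem_univ _, hx', hg'⟩⟩
    have h3 := Finset.card_le_card h2
    have h4 := Finset.card_union_le (Finset.univ.filter fun x : X => P f γ x)
      ((BS f).biUnion (fun g => Finset.univ.filter fun x : X => Sv f γ x ∧ Sv g γ x))
    have h5 : ((BS f).biUnion (fun g => Finset.univ.filter
        fun x : X => Sv f γ x ∧ Sv g γ x)).card ≤
        ∑ g ∈ BS f, (Finset.univ.filter fun x : X => Sv f γ x ∧ Sv g γ x).card :=
      Finset.card_biUnion_le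
    have h6 : ∑ g ∈ BS f, (Finset.univ.filter fun x : X => Sv f γ x ∧ Sv g γ x).card ≤
        ∑ g ∈ BS f, (Finset.univ.filter fun w : Fin n → V => ∀ j,
          ∑ c ∈ Finset.univ.filter (fun c => f c = j), w c =
          ∑ c ∈ Finset.univ.filter (fun c => g c = j), w c).card :=
      Finset.sum_le_sum fun g _ => cnt2 f g γ
    have h7 := hf f hfb
    have h8 : 4 * ∑ g ∈ BS f, (Finset.univ.filter fun w : Fin n → V => ∀ j,
          ∑ c ∈ Finset.univ.filter (fun c => f c = j), w c =
          ∑ c ∈ Finset.univ.filter (fun c => g c = j), w c).card ≤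
      Fintype.card V ^ n := by
      convert h7
    omega
  -- the sum over all weights
  have c2 : BalS.card * B.card * (3 * Fintype.card V ^ n) ≤ 4 * ∑ x : X, (Good x).card := by
    have h1 : ∀ x : X, ∑ f ∈ BalS, ∑ γ ∈ B, (if P f γ x then 1 else 0) ≤ (Good x).card := by
      intro x
      have h2 : (Good x).card = ∑ f ∈ BalS, (if ∃ γ ∈ B, P f γ x then 1 else 0) := by
        rw [← Finset.card_filter]
        congr 1
        rw [hBalS, Finset.filter_filter]
      rw [h2]
      refine Finset.sum_le_sum fun f _ => ?_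
      rw [← Finset.card_filter]
      by_cases hex : ∃ γ ∈ B, P f γ x
      · rw [if_pos hex]
        rw [Finset.card_le_one]
        intro γ hγ γ' hγ'
        have e1 := (Finset.mem_filter.1 hγ).2.1 ⟨0, by omega⟩
        have e2 := (Finset.mem_filter.1 hγ').2.1 ⟨0, by omega⟩
        exact e1.symm.trans e2
      · rw [if_neg hex, Nat.le_zero, Finset.card_eq_zero, Finset.filter_eq_empty_iff]
        intro γ hγ hp
        exact hex ⟨γ, hγ, hp⟩
    calc BalS.card * B.card * (3 * Fintype.card V ^ n)
        = ∑ f ∈ BalS, ∑ γ ∈ B, 3 * Fintype.card V ^ n := by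
          rw [Finset.sum_const, Finset.sum_const, smul_eq_mul, smul_eq_mul, mul_assoc]
      _ ≤ ∑ f ∈ BalS, ∑ γ ∈ B, 4 * (Finset.univ.filter fun x : X => P f γ x).card :=
          Finset.sum_le_sum fun f hfB => Finset.sum_le_sum fun γ _ => c1 f hfB γ
      _ = 4 * ∑ f ∈ BalS, ∑ γ ∈ B, ∑ x : X, (if P f γ x then 1 else 0) := by
          rw [Finset.mul_sum]
          refine Finset.sum_congr rfl fun f _ => ?_
          rw [Finset.mul_sum]
          refine Finset.sum_congr rfl fun γ _ => ?_
          rw [Finset.card_filter]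
      _ = 4 * ∑ x : X, ∑ f ∈ BalS, ∑ γ ∈ B, (if P f γ x then 1 else 0) := by
          congr 1
          rw [Finset.sum_comm' (s := Finset.univ) (t := fun _ => BalS) (s' := fun _ => Finset.univ)
            (t' := BalS) (h := by intro x y; simp)]
          refine Finset.sum_congr rfl fun f _ => ?_
          rw [Finset.sum_comm]
      _ ≤ 4 * ∑ x : X, (Good x).card :=
          Nat.mul_le_mul_left _ (Finset.sum_le_sum fun x _ => h1 x)
  -- choice of the weights
  have hXc : Fintype.card X = Fintype.card V ^ n * Fintype.card V ^ K := by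
    show Fintype.card ((Fin n → V) × (Fin K → V)) = _
    rw [Fintype.card_prod, Fintype.card_fun, Fintype.card_fun, Fintype.card_fin,
      Fintype.card_fin]
  have c3 : ∃ x : X, 3 * (B.card * BalS.card) ≤ 4 * (Good x).card * Fintype.card V ^ K := by
    by_contra hcon
    push Not at hcon
    have hne : (Finset.univ : Finset X).Nonempty := ⟨(0, 0), Finset.mem_univ _⟩
    have h1 := Finset.sum_lt_sum_of_nonempty hne (fun x _ => hcon x)
    rw [Finset.sum_const, Finset.card_univ, hXc, smul_eq_mul, ← Finset.sum_mul,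
      ← Finset.mul_sum] at h1
    have h2 := Nat.mul_le_mul_right (Fintype.card V ^ K) c2
    have h3 : BalS.card * B.card * (3 * Fintype.card V ^ n) * Fintype.card V ^ K =
      Fintype.card V ^ n * Fintype.card V ^ K * (3 * (B.card * BalS.card)) := by ring
    rw [h3] at h2
    exact absurd h1 (not_lt_of_ge h2)
  obtain ⟨x, hx⟩ := c3
  refine ⟨Good x, ⟨fun f hfG => (Finset.mem_filter.1 hfG).2.1, ?_⟩, ?_⟩
  · intro g hg F hF hFg
    have hγ : ∀ j, ∃ γ ∈ B, P (F j) γ x := fun j => (Finset.mem_filter.1 (hF j)).2.2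
    choose γ hγB hγP using hγ
    have e1 : ∀ i : Fin K, x.2 i + SS x.1 g i.castSucc = γ i.castSucc := by
      intro i
      rw [SS_congr x.1 (F i.castSucc) g i.castSucc (hFg i.castSucc)]
      exact (hγP i.castSucc).1 i
    have e2 : SS x.1 g (Fin.last K) = SS x.1 (F (Fin.last K)) (Fin.last K) :=
      SS_congr x.1 (F (Fin.last K)) g (Fin.last K) (hFg (Fin.last K))
    have e3 : ∀ i : Fin K, x.2 i + SS x.1 (F (Fin.last K)) i.castSucc = γ (Fin.last K) :=
      (hγP (Fin.last K)).1
    have t1 := SS_total x.1 g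
    have t2 := SS_total x.1 (F (Fin.last K))
    rw [Fin.sum_univ_castSucc] at t1 t2
    rw [e2] at t1
    have t3 : ∑ i : Fin K, SS x.1 g i.castSucc =
        ∑ i : Fin K, SS x.1 (F (Fin.last K)) i.castSucc := add_right_cancel (t1.trans t2.symm)
    have t4 : ∑ i : Fin K, γ i.castSucc = K • γ (Fin.last K) := by
      calc ∑ i : Fin K, γ i.castSucc = ∑ i : Fin K, (x.2 i + SS x.1 g i.castSucc) :=
            Finset.sum_congr rfl fun i _ => (e1 i).symm
        _ = ∑ i : Fin K, (x.2 i + SS x.1 (F (Fin.last K)) i.castSucc) := by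
            rw [Finset.sum_add_distrib, Finset.sum_add_distrib, t3]
        _ = ∑ i : Fin K, γ (Fin.last K) := Finset.sum_congr rfl fun i _ => e3 i
        _ = K • γ (Fin.last K) := by rw [Finset.sum_const, Finset.card_univ, Fintype.card_fin]
    have t5 := hB (fun i => γ i.castSucc) (γ (Fin.last K)) (fun i => hγB _) (hγB _) t4
    have t6 : ∀ j, γ j = γ (Fin.last K) := by
      intro j
      exact Fin.lastCases rfl (fun i => t5 i) j
    have t7 : Sv g (γ (Fin.last K)) x := fun i => (e1 i).trans (t5 i)
    intro j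
    by_contra hne
    have h1 : g ∈ BS (F j) := by
      simp only [hBS, Finset.mem_filter, Finset.mem_univ, true_and]
      exact ⟨hg, fun h => hne h.symm, j, hFg j⟩
    have h2 := (hγP j).2 g h1
    rw [t6 j] at h2
    exact h2 t7
  · have h1 : 2 * Fintype.card V ^ K * (Good x).card =
      2 * ((Good x).card * Fintype.card V ^ K) := by ring
    rw [h1]
    have h2 : 4 * (Good x).card * Fintype.card V ^ K =
      4 * ((Good x).card * Fintype.card V ^ K) := by ring
    rw [h2] at hx
    omega

end Pool.Agent.W212.MG
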